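import Pool.Agent.Helper68.Fam.Goals

/-!
# Project FAM, packet KEEPS
-/

namespace NApexGraphs.Fam.Helper86

open SimpleGraph NApexGraphs NApexGraphs.Dom NApexGraphs.Fam

/-- two members of `F` with two common points are equal -/
theorem tri_eq {V : Type} [DecidableEq V] {G : SimpleGraph V} {F : Finset (Finset V)}
    (hF : Tri G F) {T T' : {T // T ∈ F}} {a b : V} (hab : a ≠ b) (ha : a ∈ T.1) (hb : b ∈ T.1)
    (ha' : a ∈ T'.1) (hb' : b ∈ T'.1) : T' = T := by
  by_contra hne
  have h1 := hF.pair T.1 T.2 T'.1 T'.2 (fun h => hne (Subtype.ext h.symm))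
  have h2 : 1 < (T.1 ∩ T'.1).card :=
    Finset.one_lt_card.2 ⟨a, Finset.mem_inter.2 ⟨ha, ha'⟩, b, Finset.mem_inter.2 ⟨hb, hb'⟩, hab⟩
  omega

/-- KEEPS -/
theorem gKEEPS : Goals.KEEPS := by
  intro V _ _ G F hF X
  refine ⟨?_, ?_, ?_, ?_⟩
  · intro u v hT hX
    refine ⟨?_, ?_, ?_, ?_, ?_, ?_⟩
    · intro T T' h
      exact (deleteEdges_adj.1 h).1
    · intro T x _ _ h
      exact (deleteEdges_adj.1 h).1
    · intro x y _ _ h
      have h1 : G.Adj x y ∧ ∀ T ∈ F, ¬ (x ∈ T ∧ y ∈ T) := (deleteEdges_adj.1 h).1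
      exact ⟨h1.1, fun T _ => h1.2 T.1 T.2⟩
    · intro h
      exact (deleteEdges_adj.1 h).2 rfl
    · intro _ T _ h
      exact hT T.1 T.2 ⟨(deleteEdges_adj.1 h.1).1, (deleteEdges_adj.1 h.2).1⟩
    · intro x y _ _ hxy hxu hxv _ _
      by_cases hc : ∃ T ∈ F, x ∈ T ∧ y ∈ T
      · obtain ⟨T, hTF, hx, hy⟩ := hc
        right
        refine ⟨⟨T, hTF⟩, hX _, ?_, ?_⟩
        · refine deleteEdges_adj.2 ⟨hx, ?_⟩
          intro h
          rw [Set.mem_singleton_iff, Sym2.eq_iff] at h
          rcases h with ⟨h, _⟩ | ⟨h, _⟩ <;> exact absurd h (by simp)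
        · refine deleteEdges_adj.2 ⟨hy, ?_⟩
          intro h
          rw [Set.mem_singleton_iff, Sym2.eq_iff] at h
          rcases h with ⟨h, _⟩ | ⟨h, _⟩ <;> exact absurd h (by simp)
      · left
        refine deleteEdges_adj.2 ⟨⟨hxy, fun T hTF h => hc ⟨T, hTF, h⟩⟩, ?_⟩
        intro h
        rw [Set.mem_singleton_iff, Sym2.eq_iff] at h
        rcases h with ⟨h, _⟩ | ⟨h, _⟩
        · exact hxu (Sum.inl_injective h)
        · exact hxv (Sum.inl_injective h)
  · intro T z x hz hx hzx hX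
    refine ⟨?_, ?_, ?_, ?_, ?_, ?_⟩
    · intro T T' h
      exact (deleteEdges_adj.1 h).1
    · intro T x _ _ h
      exact (deleteEdges_adj.1 h).1
    · intro x y _ _ h
      have h1 : G.Adj x y ∧ ∀ T ∈ F, ¬ (x ∈ T ∧ y ∈ T) := (deleteEdges_adj.1 h).1
      exact ⟨h1.1, fun T _ => h1.2 T.1 T.2⟩
    · intro h
      have h1 : G.Adj z x ∧ ∀ T ∈ F, ¬ (z ∈ T ∧ x ∈ T) := (deleteEdges_adj.1 h).1
      exact h1.2 T.1 T.2 ⟨hz, hx⟩
    · intro _ T' _ h
      have e : T' = T := tri_eq hF hzx hz hx (deleteEdges_adj.1 h.1).1 (deleteEdges_adj.1 h.2).1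
      subst e
      apply (deleteEdges_adj.1 h.1).2
      rw [Set.mem_singleton_iff]
      exact Sym2.eq_swap
    · intro p q _ _ hpq hpz hpx hqz hqx
      by_cases hc : ∃ T' ∈ F, p ∈ T' ∧ q ∈ T'
      · obtain ⟨T', hTF, hp, hq⟩ := hc
        right
        refine ⟨⟨T', hTF⟩, hX _, ?_, ?_⟩
        · refine deleteEdges_adj.2 ⟨hp, ?_⟩
          intro h
          rw [Set.mem_singleton_iff, Sym2.eq_iff] at h
          rcases h with ⟨h, _⟩ | ⟨_, h⟩
          · exact absurd h (by simp)
          · exact hpz (Sum.inl_injective h)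
        · refine deleteEdges_adj.2 ⟨hq, ?_⟩
          intro h
          rw [Set.mem_singleton_iff, Sym2.eq_iff] at h
          rcases h with ⟨h, _⟩ | ⟨_, h⟩
          · exact absurd h (by simp)
          · exact hqz (Sum.inl_injective h)
      · left
        refine deleteEdges_adj.2 ⟨⟨hpq, fun T hTF h => hc ⟨T, hTF, h⟩⟩, ?_⟩
        intro h
        rw [Set.mem_singleton_iff, Sym2.eq_iff] at h
        rcases h with ⟨h, _⟩ | ⟨_, h⟩
        · exact hpz (Sum.inl_injective h)
        · exact hqz (Sum.inl_injective h)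
  · intro T z x t hz hx ht hzx hzt hxt hX
    have hTX : Sum.inr T ∈ X := (hX T).2 rfl
    have yp : ∀ (T' : {T // T ∈ F}) (y : V),
        (addN (YG G F) (Sum.inr T) (Sum.inl z)).Adj (Sum.inr T') (Sum.inl y) → y ∈ T'.1 := by
      intro T' y h
      rcases h with h | ⟨h, _, _⟩ | ⟨_, _, h⟩
      · exact h
      · exact absurd h (by simp)
      · exact absurd h id
    refine ⟨?_, ?_, ?_, ?_, ?_, ?_⟩
    · intro T' T'' h
      rcases h with h | ⟨h, _, _⟩ | ⟨h, _, _⟩
      · exact h
      · exact absurd h (by simp)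
      · exact absurd h (by simp)
    · intro T' y _ _ h
      exact yp T' y h
    · intro a b _ _ h
      rcases h with h | ⟨h1, h2, h3⟩ | ⟨h1, h2, h3⟩
      · have h1 : G.Adj a b ∧ ∀ T ∈ F, ¬ (a ∈ T ∧ b ∈ T) := h
        exact ⟨h1.1, fun T _ => h1.2 T.1 T.2⟩
      · have e1 : a = z := Sum.inl_injective h1
        have hb : b ∈ T.1 := h3
        have hbz : z ≠ b := fun e => h2 (by rw [e])
        subst e1
        refine ⟨hF.clique T.1 T.2 a hz b hb hbz, ?_⟩
        intro T' hT' hh
        exact hT' ((hX T').2 (tri_eq hF hbz hz hb hh.1 hh.2))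
      · have e1 : b = z := Sum.inl_injective h1
        have ha : a ∈ T.1 := h3
        have haz : a ≠ z := fun e => h2 (by rw [e])
        subst e1
        refine ⟨hF.clique T.1 T.2 a ha b hz haz, ?_⟩
        intro T' hT' hh
        exact hT' ((hX T').2 (tri_eq hF haz ha hz hh.1 hh.2))
    · intro h
      rcases h with h | ⟨h1, _, _⟩ | ⟨h1, _, _⟩
      · have h1 : G.Adj x t ∧ ∀ T ∈ F, ¬ (x ∈ T ∧ t ∈ T) := h
        exact h1.2 T.1 T.2 ⟨hx, ht⟩
      · exact hzx (Sum.inl_injective h1).symm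
      · exact hzt (Sum.inl_injective h1).symm
    · intro _ T' hT' h
      exact hT' ((hX T').2 (tri_eq hF hxt hx ht (yp T' x h.1) (yp T' t h.2)))
    · intro p q _ _ hpq hpx hpt hqx hqt
      by_cases hc : ∃ T' ∈ F, p ∈ T' ∧ q ∈ T'
      · obtain ⟨T', hTF, hp, hq⟩ := hc
        right
        refine ⟨⟨T', hTF⟩, ?_, Or.inl hp, Or.inl hq⟩
        intro hmem
        have e := (hX ⟨T', hTF⟩).1 hmem
        have e' : T' = T.1 := congrArg Subtype.val e
        subst e'
        have hsub : ({p, q, x, t} : Finset V) ⊆ T.1 := by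
          intro a ha
          simp only [Finset.mem_insert, Finset.mem_singleton] at ha
          rcases ha with rfl | rfl | rfl | rfl
          · exact hp
          · exact hq
          · exact hx
          · exact ht
        have hcard := Finset.card_le_card hsub
        have h4 : ({p, q, x, t} : Finset V).card = 4 := by
          rw [Finset.card_insert_of_notMem, Finset.card_insert_of_notMem,
            Finset.card_insert_of_notMem, Finset.card_singleton]
          · simpa using hxt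
          · simp only [Finset.mem_insert, Finset.mem_singleton, not_or]
            exact ⟨hqx, hqt⟩
          · simp only [Finset.mem_insert, Finset.mem_singleton, not_or]
            exact ⟨hpq.ne, hpx, hpt⟩
        have h3 := hF.card T.1 T.2
        omega
      · left
        exact Or.inl ⟨hpq, fun T hTF h => hc ⟨T, hTF, h⟩⟩
  · intro x y u v _ hy hu hv hX huv
    refine ⟨?_, ?_, ?_, ?_, ?_, ?_⟩
    · intro T' T'' h
      rcases h with h | ⟨h, _, _⟩ | ⟨h, _, _⟩
      · exact h
      · exact absurd h (by simp)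
      · exact absurd h (by simp)
    · intro T a _ ha h
      rcases h with h | ⟨h, _, _⟩ | ⟨h, _, _⟩
      · exact h
      · exact absurd h (by simp)
      · exact absurd (h ▸ hy) ha
    · intro a b ha hb h
      rcases h with h | ⟨h, _, _⟩ | ⟨h, _, _⟩
      · have h1 : G.Adj a b ∧ ∀ T ∈ F, ¬ (a ∈ T ∧ b ∈ T) := h
        exact ⟨h1.1, fun T _ => h1.2 T.1 T.2⟩
      · exact absurd (h ▸ hy) ha
      · exact absurd (h ▸ hy) hb
    · intro h
      rcases h with h | ⟨h, _, _⟩ | ⟨h, _, _⟩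
      · have h1 : G.Adj u v ∧ ∀ T ∈ F, ¬ (u ∈ T ∧ v ∈ T) := h
        rcases huv with e | e
        · exact h1.1.ne e
        · exact e h1.1
      · exact absurd (h ▸ hy) hu
      · exact absurd (h ▸ hy) hv
    · intro hne T _ h
      have yp : ∀ a : V, Sum.inl a ∉ X →
          (addN (YG G F) (Sum.inl x) (Sum.inl y)).Adj (Sum.inr T) (Sum.inl a) → a ∈ T.1 := by
        intro a ha h
        rcases h with h | ⟨h, _, _⟩ | ⟨h, _, _⟩
        · exact h
        · exact absurd h (by simp)
        · exact absurd (h ▸ hy) ha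
      rcases huv with e | e
      · exact hne e
      · exact e (hF.clique T.1 T.2 u (yp u hu h.1) v (yp v hv h.2) hne)
    · intro p q _ _ hpq _ _ _ _
      by_cases hc : ∃ T' ∈ F, p ∈ T' ∧ q ∈ T'
      · obtain ⟨T', hTF, hp, hq⟩ := hc
        exact Or.inr ⟨⟨T', hTF⟩, hX _, Or.inl hp, Or.inl hq⟩
      · exact Or.inl (Or.inl ⟨hpq, fun T hTF h => hc ⟨T, hTF, h⟩⟩)

end NApexGraphs.Fam.Helper86
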